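import Pool.Agent.Run7.h242.SC.Iface

/-!
# Project SC (helper242), piece WG

A function which is `C`-Lipschitz on every ball inside an open set has a weak gradient there.
-/

set_option autoImplicit false

namespace Run7.h617.SC

open MeasureTheory Set Filter Topology Metric
open scoped ContDiff ENNReal NNReal
open Run7.h242.SC

/-- a locally Lipschitz function agrees near a compact set with a Lipschitz function -/
lemma lip_ext {n : ℕ} {Ω K : Set (E n)} {C : ℝ≥0} {g : E n → ℝ} (hΩ : IsOpen Ω)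
    (hg : ∀ x r, ball x r ⊆ Ω → LipschitzOnWith C g (ball x r)) (hK : IsCompact K) (hKΩ : K ⊆ Ω) :
    ∃ (D : ℝ≥0) (h : E n → ℝ), LipschitzWith D h ∧ ∀ x ∈ K, h =ᶠ[𝓝 x] g := by
  obtain ⟨L, hL, hKL, hLΩ⟩ := exists_compact_between hK hΩ hKΩ
  have hloc : LocallyLipschitzOn L g := by
    intro x hx
    obtain ⟨r, hr, hrΩ⟩ := Metric.isOpen_iff.1 hΩ x (hLΩ hx)
    exact ⟨C, ball x r, mem_nhdsWithin_of_mem_nhds (ball_mem_nhds x hr), hg x r hrΩ⟩
  obtain ⟨D, hD⟩ := hloc.exists_lipschitzOnWith_of_compact hL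
  obtain ⟨h, hh, hhg⟩ := hD.extend_real
  refine ⟨D, h, hh, fun x hx => ?_⟩
  filter_upwards [mem_interior_iff_mem_nhds.1 (hKL hx)] with y hy
  exact (hhg hy).symm

theorem t_WG : S_WG := by
  intro n Ω C g hΩ hg
  have hlin : ∀ x ∈ Ω, ∀ j : Fin n, |lineDeriv ℝ g x (ee j)| ≤ C := by
    intro x hx j
    obtain ⟨r, hr, hrΩ⟩ := Metric.isOpen_iff.1 hΩ x hx
    have := norm_lineDeriv_le_of_lipschitzOn ℝ (v := (ee j : E n)) (ball_mem_nhds x hr) (hg x r hrΩ)
    rw [Real.norm_eq_abs] at this
    refine this.trans (le_of_eq ?_)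
    unfold ee
    simp
  refine ⟨fun x j => Ω.indicator (fun y => lineDeriv ℝ g y (ee j)) x, ?_, ?_, ?_⟩
  · intro j
    obtain ⟨F, hFc, hFΩ, hFU, hFm⟩ := hΩ.exists_iUnion_isClosed
    have hKc : ∀ m : ℕ, IsCompact (F m ∩ closedBall 0 (m : ℝ)) := fun m =>
      (isCompact_closedBall _ _).inter_left (hFc m)
    choose D h hD hh using fun m : ℕ => lip_ext hΩ hg (hKc m) (inter_subset_left.trans (hFΩ m))
    have hmeas : ∀ m : ℕ, Measurable ((F m ∩ closedBall 0 (m : ℝ)).indicator
        (fun y => lineDeriv ℝ (h m) y (ee j : E n))) := fun m =>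
      (measurable_lineDeriv (hD m).continuous).indicator (hKc m).measurableSet
    refine measurable_of_tendsto_metrizable hmeas ?_
    rw [tendsto_pi_nhds]
    intro x
    show Tendsto (fun m : ℕ => (F m ∩ closedBall 0 (m : ℝ)).indicator
      (fun y => lineDeriv ℝ (h m) y (ee j : E n)) x) atTop
      (𝓝 (Ω.indicator (fun y => lineDeriv ℝ g y (ee j)) x))
    by_cases hx : x ∈ Ω
    · rw [indicator_of_mem hx]
      obtain ⟨a, ha⟩ := mem_iUnion.1 (hFU ▸ hx : x ∈ ⋃ n, F n)
      obtain ⟨b, hb⟩ := exists_nat_ge ‖x‖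
      refine tendsto_const_nhds.congr' ?_
      filter_upwards [eventually_ge_atTop (max a b)] with m hm
      have hxm : x ∈ F m ∩ closedBall 0 (m : ℝ) := by
        refine ⟨hFm ((le_max_left _ _).trans hm) ha, ?_⟩
        rw [mem_closedBall_zero_iff]
        exact hb.trans (by exact_mod_cast (le_max_right _ _).trans hm)
      rw [indicator_of_mem hxm]
      exact ((hh m x hxm).lineDeriv_eq).symm
    · rw [indicator_of_notMem hx]
      refine tendsto_const_nhds.congr fun m => ?_
      rw [indicator_of_notMem (fun hxm => hx (hFΩ m hxm.1))]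
  · intro x j
    by_cases hx : x ∈ Ω
    · show |Ω.indicator (fun y => lineDeriv ℝ g y (ee j)) x| ≤ C
      rw [indicator_of_mem hx]
      exact hlin x hx j
    · show |Ω.indicator (fun y => lineDeriv ℝ g y (ee j)) x| ≤ C
      rw [indicator_of_notMem hx, abs_zero]
      exact C.coe_nonneg
  · intro j φ p1 p2 p3
    obtain ⟨D, h, hD, hh⟩ := lip_ext hΩ hg p2.isCompact p3
    obtain ⟨D', hD'⟩ := ContDiff.lipschitzWith_of_hasCompactSupport p2 p1 (by simp)
    have hφ0 : ∀ x, x ∉ tsupport φ → φ x = 0 := fun x hx => image_eq_zero_of_notMem_tsupport hx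
    have hd0 : ∀ x, x ∉ tsupport φ → fderiv ℝ φ x (ee j) = 0 := by
      intro x hx
      have := image_eq_zero_of_notMem_tsupport (f := fderiv ℝ φ)
        (fun h => hx (tsupport_fderiv_subset ℝ h))
      rw [this]
      rfl
    have key := LipschitzWith.integral_lineDeriv_mul_eq (μ := volume) hD hD' p2 (ee j)
    have e1 : ∫ x in Ω, g x * fderiv ℝ φ x (ee j) = ∫ x, h x * fderiv ℝ φ x (ee j) := by
      rw [setIntegral_eq_integral_of_forall_compl_eq_zero]
      · apply integral_congr_ae
        refine Eventually.of_forall fun x => ?_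
        show g x * fderiv ℝ φ x (ee j) = h x * fderiv ℝ φ x (ee j)
        by_cases hx : x ∈ tsupport φ
        · rw [(hh x hx).eq_of_nhds]
        · rw [hd0 x hx, mul_zero, mul_zero]
      · intro x hx
        rw [hd0 x (fun h => hx (p3 h)), mul_zero]
    have e2 : ∫ x in Ω, Ω.indicator (fun y => lineDeriv ℝ g y (ee j)) x * φ x =
        ∫ x, lineDeriv ℝ h x (ee j) * φ x := by
      rw [setIntegral_eq_integral_of_forall_compl_eq_zero]
      · apply integral_congr_ae
        refine Eventually.of_forall fun x => ?_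
        show Ω.indicator (fun y => lineDeriv ℝ g y (ee j)) x * φ x = lineDeriv ℝ h x (ee j) * φ x
        by_cases hx : x ∈ tsupport φ
        · rw [indicator_of_mem (p3 hx), (hh x hx).lineDeriv_eq]
        · rw [hφ0 x hx, mul_zero, mul_zero]
      · intro x hx
        rw [hφ0 x (fun h => hx (p3 h)), mul_zero]
    rw [e1, e2, key, ← integral_neg]
    apply integral_congr_ae
    refine Eventually.of_forall fun x => ?_
    show h x * fderiv ℝ φ x (ee j) = -(lineDeriv ℝ φ x (-(ee j)) * h x)
    have hdiff : DifferentiableAt ℝ φ x := (p1.differentiable (by simp)) x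
    rw [hdiff.lineDeriv_eq_fderiv, map_neg]
    ring

end Run7.h617.SC
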