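import Pool.Agent.Run7.h242.SC.Iface

/-!
# Project SC (helper242), piece WK

Weak convergence of bounded functions with bounded weak derivatives; density of test functions.
-/

set_option autoImplicit false

namespace Run7.h617.SC

open MeasureTheory Set Filter Topology Metric
open scoped ContDiff ENNReal NNReal Manifold
open Run7.h242.SC

/-- a smooth cut-off function -/
lemma cutoff {n : ℕ} {K Ω : Set (E n)} (hK : IsCompact K) (hΩ : IsOpen Ω) (h : K ⊆ Ω) :
    ∃ χ : E n → ℝ, ContDiff ℝ ∞ χ ∧ HasCompactSupport χ ∧ tsupport χ ⊆ Ω ∧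
      (∀ᶠ x in 𝓝ˢ K, χ x = 1) ∧ ∀ x, χ x ∈ Icc (0 : ℝ) 1 := by
  obtain ⟨L, hL, hKL, hLΩ⟩ := exists_compact_between hK hΩ h
  obtain ⟨f, h1, h2, h3⟩ :=
    exists_contMDiffMap_one_nhds_of_subset_interior (n := (⊤ : ℕ∞)) 𝓘(ℝ, E n) hK.isClosed hKL
  have hts : tsupport f ⊆ L :=
    closure_minimal (fun x hx => by_contra fun hxL => hx (h2 x hxL)) hL.isClosed
  refine ⟨f, f.contMDiff.contDiff, HasCompactSupport.of_support_subset_isCompact hL
    ((subset_tsupport _).trans hts), hts.trans hLΩ, h1, h3⟩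

/-- test functions are dense in `L¹(Ω)` -/
lemma approx {n : ℕ} {Ω : Set (E n)} (hΩ : IsOpen Ω) {ψ : E n → ℝ} (hψ : IntegrableOn ψ Ω)
    {ε : ℝ} (hε : 0 < ε) :
    ∃ φ : E n → ℝ, ContDiff ℝ ∞ φ ∧ HasCompactSupport φ ∧ tsupport φ ⊆ Ω ∧
      ∫ x in Ω, |ψ x - φ x| ≤ ε := by
  obtain ⟨F, hFc, hFΩ, hFU, hFm⟩ := hΩ.exists_iUnion_isClosed
  set K : ℕ → Set (E n) := fun m => F m ∩ closedBall 0 m with hK
  have hKc : ∀ m, IsCompact (K m) := fun m => (isCompact_closedBall _ _).inter_left (hFc m)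
  have hKm : Monotone K := by
    intro a b hab
    exact inter_subset_inter (hFm hab) (closedBall_subset_closedBall (by exact_mod_cast hab))
  have hKU : ⋃ m, K m = Ω := by
    apply Subset.antisymm
    · exact iUnion_subset fun m => inter_subset_left.trans (hFΩ m)
    · intro x hx
      rw [← hFU] at hx
      obtain ⟨a, ha⟩ := mem_iUnion.1 hx
      obtain ⟨b, hb⟩ := exists_nat_ge ‖x‖
      refine mem_iUnion.2 ⟨max a b, hFm (le_max_left _ _) ha, ?_⟩
      rw [mem_closedBall_zero_iff]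
      exact hb.trans (by exact_mod_cast le_max_right _ _)
  have hlim := tendsto_setIntegral_of_monotone (f := fun x => |ψ x|) (μ := volume)
    (fun m => (hKc m).measurableSet) hKm (by rw [hKU]; exact hψ.abs)
  rw [hKU] at hlim
  obtain ⟨m, hm⟩ := (hlim.eventually_const_lt
    (show (∫ x in Ω, |ψ x|) - ε / 2 < ∫ x in Ω, |ψ x| by linarith)).exists
  have hKΩ : K m ⊆ Ω := inter_subset_left.trans (hFΩ m)
  set f : E n → ℝ := (K m).indicator ψ with hf
  have hfi : Integrable f := by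
    rw [hf, integrable_indicator_iff (hKc m).measurableSet]
    exact hψ.mono_set hKΩ
  obtain ⟨g, hg1, hg2, hg3⟩ := (memLp_one_iff_integrable.2 hfi).exist_eLpNorm_sub_le
    ENNReal.one_ne_top le_rfl (ε := ε / 2) (by linarith)
  have hgi : Integrable g := hg2.continuous.integrable_of_hasCompactSupport hg1
  have hfg : ∫ x, |f x - g x| ≤ ε / 2 := by
    have h1 : ∫ x, ‖(f - g) x‖ = (eLpNorm (f - g) 1 volume).toReal := by
      rw [eLpNorm_one_eq_lintegral_enorm, integral_norm_eq_lintegral_enorm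
        (hfi.sub hgi).aestronglyMeasurable]
    have h2 : (eLpNorm (f - g) 1 volume).toReal ≤ ε / 2 := by
      refine ENNReal.toReal_le_of_le_ofReal (by linarith) hg3
    exact (le_of_eq h1).trans h2
  obtain ⟨χ, c1, c2, c3, c4, c5⟩ := cutoff (hKc m) hΩ hKΩ
  have c4' : ∀ x ∈ K m, χ x = 1 := fun x hx => c4.self_of_nhdsSet x hx
  refine ⟨fun x => χ x * g x, c1.mul hg2, c2.mul_right, (tsupport_mul_subset_left).trans c3, ?_⟩
  have hpt : ∀ x, |ψ x - χ x * g x| ≤ |f x - g x| + (|ψ x| - (K m).indicator (fun x => |ψ x|) x) := by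
    intro x
    by_cases hx : x ∈ K m
    · rw [hf, indicator_of_mem hx, indicator_of_mem hx, c4' x hx, one_mul, sub_self, add_zero]
    · rw [hf, indicator_of_notMem hx, indicator_of_notMem hx, sub_zero, zero_sub, abs_neg]
      have h1 : |χ x * g x| ≤ |g x| := by
        rw [abs_mul, abs_of_nonneg (c5 x).1]
        exact mul_le_of_le_one_left (abs_nonneg _) (c5 x).2
      have h2 := abs_sub (ψ x) (χ x * g x)
      linarith
  have hi1 : IntegrableOn (fun x => |f x - g x|) Ω := (hfi.sub hgi).abs.integrableOn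
  have hi2 : IntegrableOn (fun x => (K m).indicator (fun x => |ψ x|) x) Ω := by
    exact (hψ.abs).indicator (hKc m).measurableSet
  have hi3 : IntegrableOn (fun x => |ψ x| - (K m).indicator (fun x => |ψ x|) x) Ω :=
    hψ.abs.sub hi2
  have hcont : Continuous fun x => χ x * g x := (c1.mul hg2).continuous
  have hi0 : IntegrableOn (fun x => |ψ x - χ x * g x|) Ω := by
    refine (Integrable.abs (hψ.sub ?_))
    exact (hcont.integrable_of_hasCompactSupport c2.mul_right).integrableOn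
  calc ∫ x in Ω, |ψ x - χ x * g x|
      ≤ ∫ x in Ω, (|f x - g x| + (|ψ x| - (K m).indicator (fun x => |ψ x|) x)) :=
        integral_mono hi0 (hi1.add hi3) hpt
    _ = (∫ x in Ω, |f x - g x|) + ((∫ x in Ω, |ψ x|) - ∫ x in K m, |ψ x|) := by
        rw [integral_add hi1 hi3, integral_sub hψ.abs hi2, setIntegral_indicator
          (hKc m).measurableSet, inter_eq_right.2 hKΩ]
    _ ≤ ε / 2 + ε / 2 := by
        refine add_le_add ?_ (by linarith)
        refine le_trans ?_ hfg
        exact setIntegral_le_integral (hfi.sub hgi).abs (Eventually.of_forall fun x => abs_nonneg _)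
    _ = ε := by ring

/-- weak convergence can be tested on test functions -/
lemma tendsto_of_test {n : ℕ} {Ω : Set (E n)} (hΩ : IsOpen Ω) {C : ℝ} {Fk : ℕ → E n → ℝ}
    {F : E n → ℝ} (hFk : ∀ k, Measurable (Fk k)) (hF : Measurable F)
    (hbk : ∀ k x, |Fk k x| ≤ C) (hb : ∀ x, |F x| ≤ C)
    (ht : ∀ φ : E n → ℝ, ContDiff ℝ ∞ φ → HasCompactSupport φ → tsupport φ ⊆ Ω →
      Tendsto (fun k => ∫ x in Ω, Fk k x * φ x) atTop (𝓝 (∫ x in Ω, F x * φ x)))
    {ψ : E n → ℝ} (hψ : IntegrableOn ψ Ω) :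
    Tendsto (fun k => ∫ x in Ω, Fk k x * ψ x) atTop (𝓝 (∫ x in Ω, F x * ψ x)) := by
  have hC : 0 ≤ C := (abs_nonneg _).trans (hb 0)
  have hint : ∀ H : E n → ℝ, Measurable H → (∀ x, |H x| ≤ C) → ∀ u : E n → ℝ,
      IntegrableOn u Ω → IntegrableOn (fun x => H x * u x) Ω := by
    intro H hH hHb u hu
    exact hu.bdd_mul hH.aestronglyMeasurable (Eventually.of_forall fun x => hHb x)
  have hdiff : ∀ H : E n → ℝ, Measurable H → (∀ x, |H x| ≤ C) → ∀ u v : E n → ℝ,
      IntegrableOn u Ω → IntegrableOn v Ω →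
      |(∫ x in Ω, H x * u x) - ∫ x in Ω, H x * v x| ≤ C * ∫ x in Ω, |u x - v x| := by
    intro H hH hHb u v hu hv
    rw [← integral_sub (hint H hH hHb u hu) (hint H hH hHb v hv), ← integral_const_mul]
    refine (abs_integral_le_integral_abs).trans ?_
    refine integral_mono ?_ ?_ ?_
    · exact ((hint H hH hHb u hu).sub (hint H hH hHb v hv)).abs
    · exact ((hu.sub hv).abs).const_mul C
    · intro x
      show |H x * u x - H x * v x| ≤ C * |u x - v x|
      rw [← mul_sub, abs_mul]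
      exact mul_le_mul_of_nonneg_right (hHb x) (abs_nonneg _)
  rw [Metric.tendsto_atTop]
  intro ε hε
  obtain ⟨φ, p1, p2, p3, p4⟩ := approx hΩ hψ (ε := ε / (3 * (C + 1))) (by positivity)
  have hφi : IntegrableOn φ Ω := (p1.continuous.integrable_of_hasCompactSupport p2).integrableOn
  obtain ⟨N, hN⟩ := Metric.tendsto_atTop.1 (ht φ p1 p2 p3) (ε / 3) (by linarith)
  refine ⟨N, fun k hk => ?_⟩
  have h1 := hdiff (Fk k) (hFk k) (hbk k) ψ φ hψ hφi
  have h2 := hdiff F hF hb ψ φ hψ hφi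
  have h3 := hN k hk
  rw [Real.dist_eq] at h3 ⊢
  have h4 : C * ∫ x in Ω, |ψ x - φ x| ≤ ε / 3 := by
    have hC1 : 0 < C + 1 := by linarith
    calc C * ∫ x in Ω, |ψ x - φ x| ≤ (C + 1) * (ε / (3 * (C + 1))) := by
          refine mul_le_mul (by linarith) p4 (integral_nonneg fun x => abs_nonneg _) hC1.le
      _ = ε / 3 := by field_simp
  have h1' := abs_le.1 (h1.trans h4)
  have h2' := abs_le.1 (h2.trans h4)
  have h3' := abs_lt.1 h3
  rw [abs_lt]
  constructor <;> linarith [h1'.1, h1'.2, h2'.1, h2'.2, h3'.1, h3'.2]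

theorem t_WK : S_WK := by
  intro n Ω j C gk Gk g G hΩ hvol hgkc hgc hGkm hGm hgkb hGkb hGb hlim hwk hw ψ hψ
  have hm : MeasurableSet Ω := hΩ.measurableSet
  have hdom : ∀ u : E n → ℝ, IntegrableOn u Ω →
      Tendsto (fun k => ∫ x in Ω, gk k x * u x) atTop (𝓝 (∫ x in Ω, g x * u x)) := by
    intro u hu
    refine tendsto_integral_of_dominated_convergence (fun x => C * |u x|) ?_ ?_ ?_ ?_
    · intro k
      exact ((hgkc k).aestronglyMeasurable hm).mul hu.aestronglyMeasurable
    · exact hu.abs.const_mul C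
    · intro k
      filter_upwards [ae_restrict_mem hm] with x hx
      rw [norm_mul]
      exact mul_le_mul_of_nonneg_right (hgkb k x hx) (abs_nonneg _)
    · filter_upwards [ae_restrict_mem hm] with x hx
      exact (hlim x hx).mul_const _
  refine ⟨hdom ψ hψ, ?_⟩
  refine tendsto_of_test hΩ hGkm hGm hGkb hGb ?_ hψ
  intro φ p1 p2 p3
  have hd : IntegrableOn (fun x => fderiv ℝ φ x (ee j)) Ω := by
    have hc : Continuous (fun x => fderiv ℝ φ x (ee j)) :=
      (p1.continuous_fderiv (by simp)).clm_apply continuous_const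
    have hcs : HasCompactSupport (fun x => fderiv ℝ φ x (ee j)) :=
      p2.fderiv_apply (𝕜 := ℝ) (ee j)
    exact (hc.integrable_of_hasCompactSupport hcs).integrableOn
  have h1 := (hdom _ hd).neg
  rw [hw φ p1 p2 p3, neg_neg] at h1
  refine h1.congr fun k => ?_
  rw [hwk k φ p1 p2 p3, neg_neg]

end Run7.h617.SC
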