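import Pool.Agent.Run7.h242.SC.Iface

/-!
# Project SC (helper242), piece WIND

The boundary of a rectangle around `0` is not null-homotopic in the punctured plane.
-/

set_option autoImplicit false

namespace Run7.h617.SC

open Set Filter Topology Metric
open Run7.h242.SC

lemma const_of_exp {f : ℝ → ℂ} {s : Set ℝ} (hs : IsPreconnected s) (hf : ContinuousOn f s)
    (he : ∀ x ∈ s, ∀ y ∈ s, Complex.exp (f x) = Complex.exp (f y)) {x y : ℝ}
    (hx : x ∈ s) (hy : y ∈ s) : f x = f y :=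
  Complex.isCoveringMap_exp.constOn_of_comp hs hf
    (fun a ha a' ha' => Subtype.ext (he a ha a' ha')) hx hy

lemma seg {h L : ℝ → ℂ} {s : Set ℝ} (hs : IsPreconnected s) (hL : ContinuousOn L s)
    (hh : ContinuousOn h s) (hexp : ∀ t ∈ s, Complex.exp (L t) = h t) (u : ℂ) (hu : u ≠ 0)
    (hsl : ∀ t ∈ s, 0 < (u * h t).re) {x y : ℝ} (hx : x ∈ s) (hy : y ∈ s) :
    L y - L x = Complex.log (u * h y) - Complex.log (u * h x) := by
  have hne : ∀ t ∈ s, u * h t ≠ 0 := by
    intro t ht h0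
    have := hsl t ht
    rw [h0] at this
    simp at this
  have hc : ContinuousOn (fun t => L t - Complex.log (u * h t)) s :=
    hL.sub ((continuousOn_const.mul hh).clog (fun t ht => Or.inl (hsl t ht)))
  have := const_of_exp hs hc (fun a ha b hb => by
    have e1 := hne a ha
    have e2 := hne b hb
    have e3 : h a ≠ 0 := fun h0 => e1 (by rw [h0, mul_zero])
    have e4 : h b ≠ 0 := fun h0 => e2 (by rw [h0, mul_zero])
    rw [Complex.exp_sub, Complex.exp_sub, Complex.exp_log e1, Complex.exp_log e2, hexp a ha,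
      hexp b hb]
    field_simp) hy hx
  linear_combination this

lemma quarter (z : ℂ) (h1 : 0 < z.re) (h2 : 0 < z.im) :
    Complex.log z - Complex.log (-Complex.I * z) = Real.pi / 2 * Complex.I := by
  set w := -Complex.I * z with hw
  have hwre : w.re = z.im := by simp [hw]
  have hwim : w.im = -z.re := by simp [hw]
  have hw0 : w ≠ 0 := by
    intro h0
    rw [h0] at hwre
    simp at hwre
    linarith
  have hz : z = Complex.exp (Complex.log w + Real.pi / 2 * Complex.I) := by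
    rw [Complex.exp_add, Complex.exp_log hw0, Complex.exp_pi_div_two_mul_I, hw]
    linear_combination z * Complex.I_sq
  have ha1 : Complex.arg w < 0 := Complex.arg_neg_iff.2 (by rw [hwim]; linarith)
  have ha2 : |Complex.arg w| < Real.pi / 2 :=
    Complex.abs_arg_lt_pi_div_two_iff.2 (Or.inl (by rw [hwre]; exact h2))
  have hpi := Real.pi_pos
  have him : (Complex.log w + Real.pi / 2 * Complex.I).im = Complex.arg w + Real.pi / 2 := by
    rw [Complex.add_im, Complex.log_im]
    congr 1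
    simp
  have hlog : Complex.log z = Complex.log w + Real.pi / 2 * Complex.I := by
    conv_lhs => rw [hz]
    rw [Complex.log_exp]
    · rw [him]
      linarith [(abs_lt.1 ha2).1]
    · rw [him]
      linarith
  rw [hlog]
  ring

lemma cl_cont : Continuous cl := by
  unfold cl
  fun_prop

lemma cl_mem (s : ℝ) : cl s ∈ Icc (0 : ℝ) 1 := by
  unfold cl
  exact ⟨le_max_left _ _, max_le (by norm_num) (min_le_right _ _)⟩

lemma cl_of_mem {s : ℝ} (hs : s ∈ Icc (0 : ℝ) 1) : cl s = s := by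
  unfold cl
  rw [min_eq_left hs.2, max_eq_right hs.1]

lemma cl_of_le {s : ℝ} (hs : s ≤ 0) : cl s = 0 := by
  unfold cl
  rw [max_eq_left]
  exact (min_le_left _ _).trans hs

lemma cl_of_ge {s : ℝ} (hs : 1 ≤ s) : cl s = 1 := by
  unfold cl
  rw [min_eq_right hs, max_eq_right (by norm_num)]

theorem t_WIND : S_WIND := by
  rintro a b c d ha hb hc hd ⟨H, hHc, hH0, hHa, hHb, hHcl⟩
  set g : ℝ × ℝ → ℂ := fun p => H (cl p.1, cl p.2) with hg
  have hmem : ∀ p : ℝ × ℝ, (cl p.1, cl p.2) ∈ Icc (0 : ℝ) 1 ×ˢ Icc (0 : ℝ) 1 := fun p =>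
    ⟨cl_mem _, cl_mem _⟩
  have hgc : Continuous g := by
    have h1 : Continuous fun p : ℝ × ℝ => (cl p.1, cl p.2) :=
      (cl_cont.comp continuous_fst).prodMk (cl_cont.comp continuous_snd)
    exact hHc.comp_continuous h1 hmem
  have hsc : IsSimplyConnected (univ : Set (ℝ × ℝ)) := by
    have : ContractibleSpace (univ : Set (ℝ × ℝ)) :=
      convex_univ.contractibleSpace univ_nonempty
    show SimplyConnectedSpace (univ : Set (ℝ × ℝ))
    infer_instance
  obtain ⟨L, hLc, hL⟩ := Complex.exists_continuousOn_eqOn_exp_comp hsc isOpen_univ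
    hgc.continuousOn (by
      rintro ⟨p, -, hp⟩
      exact hH0 _ (hmem p) hp)
  have hLc' : Continuous L := continuousOn_univ.1 hLc
  have hLe : ∀ p, Complex.exp (L p) = g p := fun p => hL (mem_univ p)
  -- the difference of the two ends
  have hD : L (0, 1) - L (0, 0) = L (1, 1) - L (1, 0) := by
    refine const_of_exp (f := fun s => L (s, 1) - L (s, 0)) (s := Icc (0 : ℝ) 1)
      isPreconnected_Icc ?_ ?_ ⟨le_rfl, zero_le_one⟩ ⟨zero_le_one, le_rfl⟩
    · refine Continuous.continuousOn ?_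
      exact (hLc'.comp (Continuous.prodMk_left 1)).sub (hLc'.comp (Continuous.prodMk_left 0))
    · have key : ∀ x ∈ Icc (0 : ℝ) 1, Complex.exp (L (x, 1) - L (x, 0)) = 1 := by
        intro x hx
        rw [Complex.exp_sub, hLe, hLe]
        simp only [hg]
        rw [cl_of_mem hx, cl_of_mem (s := 0) ⟨le_rfl, zero_le_one⟩,
          cl_of_mem (s := 1) ⟨zero_le_one, le_rfl⟩, ← hHcl x hx]
        exact div_self (hH0 _ ⟨hx, ⟨le_rfl, zero_le_one⟩⟩)
      intro x hx y hy
      rw [key x hx, key y hy]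
  have hD1 : L (1, 1) = L (1, 0) := by
    refine const_of_exp (f := fun t => L (1, t)) (s := Icc (0 : ℝ) 1)
      isPreconnected_Icc ?_ ?_ ⟨zero_le_one, le_rfl⟩ ⟨le_rfl, zero_le_one⟩
    · exact (hLc'.comp (Continuous.prodMk_right 1)).continuousOn
    · intro x hx y hy
      show Complex.exp (L (1, x)) = Complex.exp (L (1, y))
      rw [hLe, hLe]
      simp only [hg]
      rw [cl_of_mem (s := 1) ⟨zero_le_one, le_rfl⟩, cl_of_mem hx, cl_of_mem hy, hHb x hx, hHb y hy]
  rw [hD1, sub_self] at hD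
  -- the loop
  set ℓ : ℝ → ℂ := fun t => L (0, t) with hℓ
  have hℓc : Continuous ℓ := hLc'.comp (Continuous.prodMk_right 0)
  have hℓe : ∀ t ∈ Icc (0 : ℝ) 1, Complex.exp (ℓ t) = rp a b c d t := by
    intro t ht
    rw [← hHa t ht, hℓ]
    simp only
    rw [hLe]
    simp only [hg]
    rw [cl_of_mem ht, cl_of_mem (s := 0) ⟨le_rfl, zero_le_one⟩]
  have hrc : Continuous (rp a b c d) := by
    have e : rp a b c d = fun t => ((a + (b - a) * (cl (4 * t) - cl (4 * t - 2)) : ℝ) : ℂ) +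
        ((c + (d - c) * (cl (4 * t - 1) - cl (4 * t - 3)) : ℝ) : ℂ) * Complex.I := by
      funext t
      exact Complex.ext (by simp [rp]) (by simp [rp])
    rw [e]
    have := cl_cont
    fun_prop
  have hsub : ∀ x y : ℝ, 0 ≤ x → y ≤ 1 → ∀ t ∈ Icc x y, t ∈ Icc (0 : ℝ) 1 :=
    fun x y hx hy t ht => ⟨hx.trans ht.1, ht.2.trans hy⟩
  have hseg : ∀ x y : ℝ, 0 ≤ x → x ≤ y → y ≤ 1 → ∀ u : ℂ, u ≠ 0 →
      (∀ t ∈ Icc x y, 0 < (u * rp a b c d t).re) →
      ℓ y - ℓ x = Complex.log (u * rp a b c d y) - Complex.log (u * rp a b c d x) := by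
    intro x y hx hxy hy u hu hpos
    exact seg isPreconnected_Icc hℓc.continuousOn hrc.continuousOn
      (fun t ht => hℓe t (hsub x y hx hy t ht)) u hu hpos ⟨le_rfl, hxy⟩ ⟨hxy, le_rfl⟩
  -- the vertices
  have v0 : rp a b c d 0 = ⟨a, c⟩ := by
    unfold rp
    rw [cl_of_le (s := 4 * 0) (by norm_num), cl_of_le (s := 4 * 0 - 2) (by norm_num),
      cl_of_le (s := 4 * 0 - 1) (by norm_num), cl_of_le (s := 4 * 0 - 3) (by norm_num)]
    simp
  have v1 : rp a b c d (1 / 4) = ⟨b, c⟩ := by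
    unfold rp
    rw [cl_of_ge (s := 4 * (1 / 4)) (by norm_num), cl_of_le (s := 4 * (1 / 4) - 2) (by norm_num),
      cl_of_le (s := 4 * (1 / 4) - 1) (by norm_num), cl_of_le (s := 4 * (1 / 4) - 3) (by norm_num)]
    simp
  have v2 : rp a b c d (1 / 2) = ⟨b, d⟩ := by
    unfold rp
    rw [cl_of_ge (s := 4 * (1 / 2)) (by norm_num), cl_of_le (s := 4 * (1 / 2) - 2) (by norm_num),
      cl_of_ge (s := 4 * (1 / 2) - 1) (by norm_num), cl_of_le (s := 4 * (1 / 2) - 3) (by norm_num)]
    simp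
  have v3 : rp a b c d (3 / 4) = ⟨a, d⟩ := by
    unfold rp
    rw [cl_of_ge (s := 4 * (3 / 4)) (by norm_num), cl_of_ge (s := 4 * (3 / 4) - 2) (by norm_num),
      cl_of_ge (s := 4 * (3 / 4) - 1) (by norm_num), cl_of_le (s := 4 * (3 / 4) - 3) (by norm_num)]
    simp
  have v4 : rp a b c d 1 = ⟨a, c⟩ := by
    unfold rp
    rw [cl_of_ge (s := 4 * 1) (by norm_num), cl_of_ge (s := 4 * 1 - 2) (by norm_num),
      cl_of_ge (s := 4 * 1 - 1) (by norm_num), cl_of_ge (s := 4 * 1 - 3) (by norm_num)]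
    simp
  have s1 := hseg 0 (1 / 4) le_rfl (by norm_num) (by norm_num) Complex.I Complex.I_ne_zero (by
    intro t ht
    have e : (rp a b c d t).im = c := by
      simp only [rp]
      rw [cl_of_le (s := 4 * t - 1) (by linarith [ht.2]), cl_of_le (s := 4 * t - 3)
        (by linarith [ht.2])]
      ring
    rw [Complex.I_mul_re, e]
    linarith)
  have s2 := hseg (1 / 4) (1 / 2) (by norm_num) (by norm_num) (by norm_num) 1 one_ne_zero (by
    intro t ht
    have e : (rp a b c d t).re = b := by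
      simp only [rp]
      rw [cl_of_ge (s := 4 * t) (by linarith [ht.1]), cl_of_le (s := 4 * t - 2)
        (by linarith [ht.2])]
      ring
    rw [one_mul, e]
    exact hb)
  have s3 := hseg (1 / 2) (3 / 4) (by norm_num) (by norm_num) (by norm_num) (-Complex.I)
    (neg_ne_zero.2 Complex.I_ne_zero) (by
    intro t ht
    have e : (rp a b c d t).im = d := by
      simp only [rp]
      rw [cl_of_ge (s := 4 * t - 1) (by linarith [ht.1]), cl_of_le (s := 4 * t - 3)
        (by linarith [ht.2])]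
      ring
    rw [neg_mul, Complex.neg_re, Complex.I_mul_re, e]
    linarith)
  have s4 := hseg (3 / 4) 1 (by norm_num) (by norm_num) le_rfl (-1)
    (neg_ne_zero.2 one_ne_zero) (by
    intro t ht
    have e : (rp a b c d t).re = a := by
      simp only [rp]
      rw [cl_of_ge (s := 4 * t) (by linarith [ht.1]), cl_of_ge (s := 4 * t - 2)
        (by linarith [ht.1])]
      ring
    rw [neg_mul, one_mul, Complex.neg_re, e]
    linarith)
  rw [v0, v1] at s1
  rw [v1, v2] at s2
  rw [v2, v3] at s3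
  rw [v3, v4] at s4
  have q1 := quarter (Complex.I * ⟨b, c⟩) (by simpa using hc) (by simpa using hb)
  have q2 := quarter ⟨b, d⟩ hb hd
  have q3 := quarter (-Complex.I * ⟨a, d⟩) (by simpa using hd) (by simpa using ha)
  have q4 := quarter (-1 * ⟨a, c⟩) (by simpa using ha) (by simpa using hc)
  have e1 : -Complex.I * (Complex.I * (⟨b, c⟩ : ℂ)) = 1 * ⟨b, c⟩ := by
    linear_combination -(⟨b, c⟩ : ℂ) * Complex.I_sq
  have e2 : (⟨b, d⟩ : ℂ) = 1 * ⟨b, d⟩ := (one_mul _).symm
  have e3 : -Complex.I * (-Complex.I * (⟨a, d⟩ : ℂ)) = -1 * ⟨a, d⟩ := by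
    linear_combination (⟨a, d⟩ : ℂ) * Complex.I_sq
  have e4 : -Complex.I * (-1 * (⟨a, c⟩ : ℂ)) = Complex.I * ⟨a, c⟩ := by ring
  rw [e1] at q1
  rw [e3] at q3
  rw [e4] at q4
  rw [one_mul (⟨b, d⟩ : ℂ)] at s2
  have hfin : ℓ 1 - ℓ 0 = 2 * Real.pi * Complex.I := by
    linear_combination s1 + s2 + s3 + s4 + q1 + q2 + q3 + q4
  rw [hD] at hfin
  have : (2 * Real.pi * Complex.I : ℂ) ≠ 0 := by
    simp [Real.pi_ne_zero]
  exact this hfin.symm

end Run7.h617.SC
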